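import Pool.Agent.Helper35.PP.Jet

/-!
# All partial derivatives (Baur and Strassen)
-/

set_option autoImplicit false
set_option linter.unusedSectionVars false

namespace Pool.Agent.Helper35.TP

open Pool.Agent.K3h55.MMT Pool.Agent.Helper35.PP Finset

universe u v

section
variable {K : Type u} [Field K] {V : Type v} [Fintype V]

open Classical in
/-- the results and the variables -/
noncomputable def dom (l : List (MvPolynomial V K)) : Finset (MvPolynomial V K) :=
  l.toFinset ∪ univ.image (MvPolynomial.X (R := K))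

theorem mem_dom {l : List (MvPolynomial V K)} {p : MvPolynomial V K} :
    p ∈ dom l ↔ p ∈ l ∨ ∃ v, MvPolynomial.X v = p := by
  classical
  simp [dom]

theorem pd_const (v : V) {p : MvPolynomial V K}
    (h : ∃ c : K, p = algebraMap K (MvPolynomial V K) c) : MvPolynomial.pderiv v p = 0 := by
  obtain ⟨c, rfl⟩ := h
  rw [MvPolynomial.algebraMap_eq, MvPolynomial.pderiv_C]

/-- add `w` to the weight of `x` -/
theorem push (l : List (MvPolynomial V K)) (x : MvPolynomial V K)
    (hx : x ∈ Av K (Set.range MvPolynomial.X) l) (α : MvPolynomial V K → MvPolynomial V K)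
    (w : MvPolynomial V K) (A : Set (MvPolynomial V K)) (hα : ∀ p ∈ dom l, α p ∈ Av K A [])
    (hw : w ∈ Av K A []) : ∃ (β : MvPolynomial V K → MvPolynomial V K)
      (B : Set (MvPolynomial V K)), A ⊆ B ∧ Gen K A 1 B ∧ (∀ p ∈ dom l, β p ∈ Av K B []) ∧
      ∀ v, ∑ p ∈ dom l, β p * MvPolynomial.pderiv v p =
        ∑ p ∈ dom l, α p * MvPolynomial.pderiv v p + w * MvPolynomial.pderiv v x := by
  classical
  by_cases h : x ∈ dom l
  · refine ⟨Function.update α x (α x + w), A ∪ {α x + w}, Set.subset_union_left, ?_, ?_, ?_⟩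
    · exact (gen_add (gen_av (hα x h)) (gen_av hw)).keep
    · intro p hp
      by_cases hpx : p = x
      · rw [hpx, Function.update_self]
        exact Or.inr (Or.inl (Or.inr rfl))
      · rw [Function.update_of_ne hpx]
        exact av_mono Set.subset_union_left (hα p hp)
    · intro v
      rw [← Finset.add_sum_erase _ _ h, ← Finset.add_sum_erase _ _ h, Function.update_self]
      have e : ∑ p ∈ (dom l).erase x, Function.update α x (α x + w) p * MvPolynomial.pderiv v p =
          ∑ p ∈ (dom l).erase x, α p * MvPolynomial.pderiv v p := by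
        refine Finset.sum_congr rfl fun p hp => ?_
        rw [Function.update_of_ne (Finset.ne_of_mem_erase hp)]
      rw [e]
      ring
  · refine ⟨α, A, subset_rfl, ?_, hα, fun v => ?_⟩
    · exact (Gen.of_subset (fun y hy => Or.inr (Or.inl hy))).mono subset_rfl (Nat.zero_le _)
        subset_rfl
    · have hc : ∃ c : K, x = algebraMap K (MvPolynomial V K) c := by
        rcases hx with hx | ⟨v, hv⟩ | hx
        · exact absurd (mem_dom.2 (Or.inl hx)) h
        · exact absurd (mem_dom.2 (Or.inr ⟨v, hv⟩)) h
        · exact hx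
      rw [pd_const v hc, mul_zero, add_zero]

theorem adj {l : List (MvPolynomial V K)} (hl : IsProg K (Set.range MvPolynomial.X) l) :
    ∀ (α : MvPolynomial V K → MvPolynomial V K) (A : Set (MvPolynomial V K)),
      Set.range MvPolynomial.X ⊆ A → (∀ p ∈ l, p ∈ A) → (∀ p ∈ dom l, α p ∈ Av K A []) →
      Gen K A (4 * l.length) (Set.range fun v => ∑ p ∈ dom l, α p * MvPolynomial.pderiv v p) := by
  classical
  induction hl with
  | nil =>
    intro α A _ _ hα
    refine Gen.of_subset ?_
    rintro _ ⟨v, rfl⟩
    have h1 : (dom ([] : List (MvPolynomial V K))) = univ.image (MvPolynomial.X (R := K)) := by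
      simp [dom]
    have h2 : ∑ p ∈ dom ([] : List (MvPolynomial V K)), α p * MvPolynomial.pderiv v p =
        α (MvPolynomial.X v) := by
      rw [h1, Finset.sum_image (fun a _ b _ h => MvPolynomial.X_injective h)]
      rw [Finset.sum_eq_single v]
      · rw [MvPolynomial.pderiv_X_self, mul_one]
      · intro b _ hb
        rw [MvPolynomial.pderiv_X_of_ne hb, mul_zero]
      · intro hv
        exact absurd (mem_univ v) hv
    beta_reduce
    rw [h2]
    exact hα _ (mem_dom.2 (Or.inr ⟨v, rfl⟩))
  | @cons l z x y hl hx hy hz ih =>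
    intro α A hX hA hα
    have hsub : dom l ⊆ dom (z :: l) := by
      intro p hp
      rw [mem_dom] at hp ⊢
      exact hp.imp (fun h => List.mem_cons_of_mem _ h) id
    have hlA : ∀ p ∈ l, p ∈ A := fun p hp => hA p (List.mem_cons_of_mem _ hp)
    by_cases hzl : z ∈ dom l
    · have e : dom (z :: l) = dom l := by
        refine Finset.Subset.antisymm ?_ hsub
        intro p hp
        rw [mem_dom] at hp
        rcases hp with hp | hp
        · rcases List.mem_cons.1 hp with rfl | hp
          · exact hzl
          · exact mem_dom.2 (Or.inl hp)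
        · exact mem_dom.2 (Or.inr hp)
      rw [e] at hα ⊢
      refine (ih α A hX hlA hα).mono subset_rfl ?_ subset_rfl
      rw [List.length_cons]
      omega
    · have e : dom (z :: l) = insert z (dom l) := by
        ext p
        rw [mem_insert, mem_dom, mem_dom, List.mem_cons]
        tauto
      have hzA : α z ∈ Av K A [] := hα z (by rw [e]; exact mem_insert_self _ _)
      have hα' : ∀ p ∈ dom l, α p ∈ Av K A [] := fun p hp => hα p (hsub hp)
      have hav : Av K (Set.range MvPolynomial.X) l ⊆ Av K A [] := by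
        rintro p (hp | hp | hp)
        · exact Or.inr (Or.inl (hlA p hp))
        · exact Or.inr (Or.inl (hX hp))
        · exact Or.inr (Or.inr hp)
      -- the derivative of the last result
      obtain ⟨c₁, c₂, hc₁, hc₂, hd⟩ : ∃ c₁ c₂ : MvPolynomial V K, c₁ ∈ Av K A [] ∧
          c₂ ∈ Av K A [] ∧ ∀ v, MvPolynomial.pderiv v z =
            c₁ * MvPolynomial.pderiv v x + c₂ * MvPolynomial.pderiv v y := by
        rcases hz with hz | hz | hz
        · refine ⟨1, 1, Or.inr (Or.inr ⟨1, (map_one _).symm⟩), Or.inr (Or.inr ⟨1, (map_one _).symm⟩),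
            fun v => ?_⟩
          rw [hz, map_add]
          ring
        · refine ⟨1, -1, Or.inr (Or.inr ⟨1, (map_one _).symm⟩),
            Or.inr (Or.inr ⟨-1, by rw [map_neg, map_one]⟩), fun v => ?_⟩
          rw [hz, map_sub]
          ring
        · refine ⟨y, x, hav hy, hav hx, fun v => ?_⟩
          rw [hz, Derivation.leibniz, smul_eq_mul, smul_eq_mul]
          ring
      have g1 : Gen K A 1 {α z * c₁} := gen_mul (gen_av hzA) (gen_av hc₁)
      have g2 : Gen K A 1 {α z * c₂} := gen_mul (gen_av hzA) (gen_av hc₂)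
      set A0 : Set (MvPolynomial V K) := A ∪ ({α z * c₁} ∪ {α z * c₂}) with hA0
      have g0 : Gen K A 2 A0 := (g1.union g2).keep
      have hAA0 : A ⊆ A0 := Set.subset_union_left
      obtain ⟨β₁, A1, s1, g3, hβ₁, e1⟩ := push l x hx α (α z * c₁) A0
        (fun p hp => av_mono hAA0 (hα' p hp)) (Or.inr (Or.inl (Or.inr (Or.inl rfl))))
      obtain ⟨β₂, A2, s2, g4, hβ₂, e2⟩ := push l y hy β₁ (α z * c₂) A1 hβ₁
        (Or.inr (Or.inl (s1 (Or.inr (Or.inr rfl)))))
      have hAA2 : A ⊆ A2 := hAA0.trans (s1.trans s2)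
      have g5 := ih β₂ A2 (hX.trans hAA2) (fun p hp => hAA2 (hlA p hp)) hβ₂
      refine (((g0.comp g3).comp g4).comp g5).mono subset_rfl ?_ ?_
      · rw [List.length_cons]
        omega
      · rintro _ ⟨v, rfl⟩
        refine ⟨v, ?_⟩
        simp only
        rw [e2, e1, e, Finset.sum_insert hzl, hd v]
        ring

/-- **All partial derivatives** -/
theorem gradient {m : ℕ} {f : MvPolynomial V K}
    (h : Gen K (Set.range (MvPolynomial.X (R := K) (σ := V))) m {f}) :
    Gen K (Set.range (MvPolynomial.X (R := K) (σ := V))) (5 * m)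
      (Set.range fun v => MvPolynomial.pderiv v f) := by
  classical
  obtain ⟨l, hl, hlm, hf⟩ := h
  set A : Set (MvPolynomial V K) := Set.range MvPolynomial.X ∪ {p | p ∈ l} with hA
  have g1 : Gen K (Set.range (MvPolynomial.X (R := K) (σ := V))) m A := by
    refine ⟨l, hl, hlm, ?_⟩
    rintro p (hp | hp)
    · exact Or.inr (Or.inl hp)
    · exact Or.inl hp
  have g2 := adj hl (fun p => if p = f then 1 else 0) A Set.subset_union_left
    (fun p hp => Or.inr hp) (fun p _ => by
      split_ifs
      · exact Or.inr (Or.inr ⟨1, (map_one _).symm⟩)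
      · exact Or.inr (Or.inr ⟨0, (map_zero _).symm⟩))
  refine (g1.comp g2).mono subset_rfl (by omega) ?_
  rintro _ ⟨v, rfl⟩
  refine ⟨v, ?_⟩
  simp only [ite_mul, one_mul, zero_mul]
  rw [Finset.sum_ite_eq']
  split_ifs with hfd
  · rfl
  · have hc : ∃ c : K, f = algebraMap K (MvPolynomial V K) c := by
      rcases hf rfl with h | ⟨v, h⟩ | h
      · exact absurd (mem_dom.2 (Or.inl h)) hfd
      · exact absurd (mem_dom.2 (Or.inr ⟨v, h⟩)) hfd
      · exact h
    rw [pd_const v hc]

end

end Pool.Agent.Helper35.TP
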