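import Pool.Agent.Helper35.TP.Stage

/-!
# From two patterns to the whole product
-/

set_option autoImplicit false
set_option linter.unusedSectionVars false

namespace Pool.Agent.Helper35.TP

open Pool.Agent.K3h55.MMT Pool.Agent.Helper35.PP Finset

universe u v

section blocks
variable {K : Type u} [Field K] {F : Type v} [CommRing F] [Algebra K F]

theorem blocks2 {J : Type} [Fintype J] {m c T n : ℕ}
    (h : Pat K F (Set.univ : Set (J × Fin m)) (Set.univ : Set (Fin m × Fin m))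
      (Set.univ : Set (J × Fin m)) T) (hn : n ≤ c * Fintype.card J) (hm : n ≤ 8 * m) :
    MCT K F Unit (Fin n) (64 * c * T + 16 * n ^ 2) := by
  classical
  obtain ⟨ρ, hρ⟩ := exists_inj (α := Fin n) (β := Fin c × J) (by simpa using hn)
  obtain ⟨δ, hδ⟩ := exists_inj (α := Fin n) (β := Fin 8 × Fin m) (by simpa using hm)
  intro X P Q hP hQ
  let P' : Fin c × J → Fin 8 × Fin m → F := ext2 ρ δ (P ())
  let Q' : Fin 8 × Fin m → Fin 8 × Fin m → F := ext2 δ δ (Q ())
  let z : Fin c × Fin 8 × Fin 8 → J × Fin m → F := fun t p =>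
    ∑ j, P' (t.1, p.1) (t.2.1, j) * Q' (t.2.1, j) (t.2.2, p.2)
  have h1 : Gen K (X ∪ {0}) (Fintype.card (Fin c × Fin 8 × Fin 8) * T)
      (⋃ t : Fin c × Fin 8 × Fin 8, Set.range (z t)) := by
    refine Gen.iUnion _ _ fun t => ?_
    have h2 := h (X ∪ {0}) (fun i j => P' (t.1, i) (t.2.1, j))
      (fun j k => Q' (t.2.1, j) (t.2.2, k))
      (fun _ _ => ext2_mem _ _ _ X (hP ()) _ _) (fun _ _ hn => absurd (Set.mem_univ _) hn)
      (fun _ _ => ext2_mem _ _ _ X (hQ ()) _ _) (fun _ _ hn => absurd (Set.mem_univ _) hn)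
    refine h2.mono subset_rfl le_rfl ?_
    rintro _ ⟨p, rfl⟩
    exact ⟨p.1, p.2, Set.mem_univ _, rfl⟩
  have h3 : Gen K (⋃ t : Fin c × Fin 8 × Fin 8, Set.range (z t))
      (Fintype.card (Unit × Fin n × Fin n) * (2 * 8))
      (Set.range fun p : Unit × Fin n × Fin n => ∑ j, P p.1 p.2.1 j * Q p.1 j p.2.2) := by
    refine Gen.range _ _ fun p => ?_
    have h4 := Gen.lincomb (K := K) (X := ⋃ t : Fin c × Fin 8 × Fin 8, Set.range (z t))
      (Finset.univ : Finset (Fin 8)) (fun _ => (1 : K))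
      (fun b => z ((ρ p.2.1).1, b, (δ p.2.2).1) ((ρ p.2.1).2, (δ p.2.2).2))
      (fun b _ => Set.mem_iUnion.2 ⟨((ρ p.2.1).1, b, (δ p.2.2).1), ⟨_, rfl⟩⟩)
    refine h4.mono subset_rfl (by simp) ?_
    rw [Set.singleton_subset_iff, Set.mem_singleton_iff]
    simp only [map_one, one_mul, z]
    rw [← Fintype.sum_prod_type (f := fun y : Fin 8 × Fin m => P' ((ρ p.2.1).1, (ρ p.2.1).2) y *
      Q' y ((δ p.2.2).1, (δ p.2.2).2))]
    simp only [Prod.mk.eta]
    apply Fintype.sum_of_injective δ hδ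
    · intro y hy
      simp only [P']
      rw [ext2_right hρ (P ()) p.2.1 y (by simpa using hy), zero_mul]
    · intro j
      simp only [P', Q']
      rw [ext2_apply hρ hδ, ext2_apply hδ hδ]
  refine (((gen_zero X).comp h1).comp h3).mono subset_rfl ?_ subset_rfl
  simp only [Fintype.card_prod, Fintype.card_fin, Fintype.card_unit]
  apply le_of_eq
  ring

end blocks

section chain
variable {K : Type u} [Field K]

theorem univ_swap {α β : Type} : {p : α × β | (p.2, p.1) ∈ (Set.univ : Set (β × α))} = Set.univ := by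
  ext p
  simp

open Classical in
theorem chain {n k t₁ t₂ s q T : ℕ} {J : Type} [Fintype J] [Nonempty J] [NeZero n]
    (S : Set (Fin n × J)) (Q : Set (J × Fin n))
    (hS : ∀ j, s ≤ (univ.filter fun i => (i, j) ∈ S).card)
    (hQ : ∀ j, q ≤ (univ.filter fun c => (j, c) ∈ Q).card) (hk : 4 * 2 ^ k ≤ n)
    (ht₁ : (8 * 640000 : ℝ) * (1 - (s : ℝ) / n) ^ t₁ ≤ 1)
    (ht₂ : (8 * 640000 : ℝ) * (1 - (q : ℝ) / n) ^ t₂ ≤ 1)
    (h : ∀ (F : Type u) [CommRing F] [Algebra K F], Pat K F S Q Set.univ T) :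
    ∃ (J₂ : Type) (_ : Fintype J₂), Fintype.card J ≤ 4 * Fintype.card J₂ ∧
      Fintype.card J₂ ≤ Fintype.card J ∧
      ∀ (F : Type u) [CommRing F] [Algebra K F],
        Pat K F (Set.univ : Set (J₂ × Fin (2 ^ k))) (Set.univ : Set (Fin (2 ^ k) × Fin (2 ^ k)))
          (Set.univ : Set (J₂ × Fin (2 ^ k)))
          (t₁ * (5 * (t₂ * (5 * (T + 3 * (n * n))) + 96 * 2 ^ k * (n + Fintype.card J) +
            3 * (2 ^ k * Fintype.card J))) + 96 * 2 ^ k * (2 ^ k + Fintype.card J)) := by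
  classical
  -- the pattern `Q` becomes the pattern of the outputs
  have h1 : ∀ (F : Type u) [CommRing F] [Algebra K F],
      Pat K F {p : J × Fin n | (p.2, p.1) ∈ S} (Set.univ : Set (Fin n × Fin n)) Q
        (5 * (T + 3 * (n * n))) := by
    intro F _ _
    have := rotate (h (MvPolynomial ((Fin n × J) ⊕ (J × Fin n) ⊕ (Fin n × Fin n)) K)) F
    rwa [Fintype.card_fin] at this
  obtain ⟨J₁, hJ₁, h2⟩ := stage {p : J × Fin n | (p.2, p.1) ∈ S} Q hQ hk ht₂ h1
  rw [Fintype.card_fin] at h2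
  have hJ₁c : J₁.card ≤ Fintype.card J := card_le_univ _
  have hne : Nonempty J₁ := by
    have h0 : 0 < Fintype.card J := Fintype.card_pos
    have h00 : 0 < J₁.card := by omega
    obtain ⟨x, hx⟩ := card_pos.1 h00
    exact ⟨⟨x, hx⟩⟩
  -- the pattern `S` becomes the pattern of the outputs
  have h3 : ∀ (F : Type u) [CommRing F] [Algebra K F],
      Pat K F (Set.univ : Set (J₁ × Fin (2 ^ k))) (Set.univ : Set (Fin (2 ^ k) × Fin n))
        {p : J₁ × Fin n | (p.2, (p.1 : J)) ∈ S}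
        (5 * (t₂ * (5 * (T + 3 * (n * n))) + 96 * 2 ^ k * (n + Fintype.card J) +
            3 * (2 ^ k * Fintype.card J))) := by
    intro F _ _
    have g1 := (h2 (MvPolynomial ((Fin (2 ^ k) × Fin n) ⊕ (Fin n × J₁) ⊕
      (Fin (2 ^ k) × J₁)) K)).transpose
    rw [univ_swap, univ_swap] at g1
    have g2 := (rotate g1 F).transpose
    rw [univ_swap, univ_swap, Fintype.card_fin, Fintype.card_coe] at g2
    refine g2.mono ?_
    gcongr
  obtain ⟨J₂, hJ₂, h4⟩ := stage (Set.univ : Set (J₁ × Fin (2 ^ k)))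
    {p : J₁ × Fin n | (p.2, (p.1 : J)) ∈ S} (q := s) (fun j => hS (j : J)) hk ht₁ h3
  rw [Fintype.card_coe] at hJ₂
  have hJ₂c : J₂.card ≤ J₁.card := by
    have := card_le_univ J₂
    rwa [Fintype.card_coe] at this
  refine ⟨J₂, inferInstance, ?_, ?_, fun F _ _ => ?_⟩
  · rw [Fintype.card_coe]
    omega
  · rw [Fintype.card_coe]
    omega
  · have g1 := h4 F
    have e : {p : J₂ × Fin (2 ^ k) | ((p.1 : J₁), p.2) ∈
        (Set.univ : Set (J₁ × Fin (2 ^ k)))} = Set.univ := by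
      ext p
      simp
    rw [e, Fintype.card_fin, Fintype.card_coe] at g1
    refine g1.mono ?_
    gcongr

end chain

end Pool.Agent.Helper35.TP
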