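import Pool.Agent.Helper35.TP.Chain

/-!
# Algorithms for products of matrices with prescribed patterns
-/

set_option autoImplicit false
set_option linter.unusedSectionVars false

namespace Pool.Agent.Helper35.TP

open Pool.Agent.K3h55.MMT Pool.Agent.Helper35.PP Finset

universe u v

section count
variable {K : Type u} [Field K]

theorem exp_bound2 (s : ℝ) (t : ℕ) (hs : s ≤ 1) (hst : 16 ≤ s * t) :
    (8 * 640000 : ℝ) * (1 - s) ^ t ≤ 1 := by
  have h1 : (1 - s) ^ t ≤ Real.exp (-16) := by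
    calc (1 - s) ^ t ≤ (Real.exp (-s)) ^ t := by
          apply pow_le_pow_left₀ (by linarith)
          have := Real.add_one_le_exp (-s)
          linarith
      _ = Real.exp (-(s * t)) := by
          rw [← Real.exp_nat_mul]
          congr 1
          ring
      _ ≤ Real.exp (-16) := Real.exp_le_exp.2 (by linarith)
  have h2 : (8 * 640000 : ℝ) ≤ Real.exp 16 := by
    have h3 : Real.exp 16 = (Real.exp 1) ^ 16 := by
      rw [← Real.exp_nat_mul]
      norm_num
    rw [h3]
    calc (8 * 640000 : ℝ) ≤ (2.718 : ℝ) ^ 16 := by norm_num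
      _ ≤ (Real.exp 1) ^ 16 := by
          apply pow_le_pow_left₀ (by norm_num)
          have := Real.exp_one_gt_d9
          linarith
  calc (8 * 640000 : ℝ) * (1 - s) ^ t ≤ Real.exp 16 * Real.exp (-16) := by
        apply mul_le_mul h2 h1 (pow_nonneg (by linarith) _) (Real.exp_pos _).le
    _ = 1 := by
        rw [← Real.exp_add]
        norm_num

theorem rounds (n s : ℕ) (hs : 1 ≤ s) (hsn : s ≤ n) : ∃ t : ℕ, 1 ≤ t ∧ t * s ≤ 17 * n ∧
    (8 * 640000 : ℝ) * (1 - (s : ℝ) / n) ^ t ≤ 1 := by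
  have hspos : (0 : ℝ) < s := by exact_mod_cast hs
  have hnpos : (0 : ℝ) < n := by
    have : 0 < n := by omega
    exact_mod_cast this
  have hsn' : (s : ℝ) ≤ n := by exact_mod_cast hsn
  refine ⟨⌈(16 * (n : ℝ)) / s⌉₊, ?_, ?_, ?_⟩
  · rw [Nat.one_le_ceil_iff]
    positivity
  · have h6 : (⌈(16 * (n : ℝ)) / s⌉₊ : ℝ) * s ≤ 17 * (n : ℝ) := by
      have h7 : (⌈(16 * (n : ℝ)) / s⌉₊ : ℝ) < (16 * (n : ℝ)) / s + 1 :=
        Nat.ceil_lt_add_one (by positivity)
      calc (⌈(16 * (n : ℝ)) / s⌉₊ : ℝ) * s ≤ ((16 * (n : ℝ)) / s + 1) * s := by gcongr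
        _ = 16 * (n : ℝ) + s := by field_simp
        _ ≤ 17 * (n : ℝ) := by linarith
    exact_mod_cast h6
  · apply exp_bound2
    · rw [div_le_one hnpos]
      exact hsn'
    · calc (16 : ℝ) = (s : ℝ) / n * ((16 * (n : ℝ)) / s) := by field_simp
        _ ≤ (s : ℝ) / n * (⌈(16 * (n : ℝ)) / s⌉₊ : ℝ) := by
          have := Nat.le_ceil ((16 * (n : ℝ)) / s)
          gcongr

open Classical in
/-- The whole product from a product with two patterns. -/
theorem whole {n r s q T : ℕ} (S Q : Set (Fin n × Fin n)) (hr : 1 ≤ r) (hs : 1 ≤ s) (hq : 1 ≤ q)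
    (hcount : r ≤ (univ.filter fun j : Fin n =>
      s ≤ (univ.filter fun i : Fin n => (i, j) ∈ S).card ∧
      q ≤ (univ.filter fun c : Fin n => (j, c) ∈ Q).card).card)
    (h : ∀ (F : Type u) [CommRing F] [Algebra K F], Pat K F S Q Set.univ T)
    (F : Type u) [CommRing F] [Algebra K F] :
    ∃ c : ℕ, MCT K F Unit (Fin n) c ∧
      c * (r * s * q) ≤ 3699200 * n ^ 3 * T + 51788816 * n ^ 5 := by
  classical
  let P : Fin n → Prop := fun j => s ≤ (univ.filter fun i : Fin n => (i, j) ∈ S).card ∧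
      q ≤ (univ.filter fun c : Fin n => (j, c) ∈ Q).card
  have hJc : r ≤ Fintype.card {j // P j} := by
    rw [Fintype.card_subtype]
    exact hcount
  have hJn : Fintype.card {j // P j} ≤ n := by
    have := Fintype.card_subtype_le P
    rwa [Fintype.card_fin] at this
  have hne : Nonempty {j // P j} := Fintype.card_pos_iff.1 (by omega)
  obtain ⟨j₀⟩ := hne
  have hsn : s ≤ n := by
    have := j₀.2.1.trans (card_le_univ _)
    rwa [Fintype.card_fin] at this
  have hqn : q ≤ n := by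
    have := j₀.2.2.trans (card_le_univ _)
    rwa [Fintype.card_fin] at this
  have hrn : r ≤ n := hJc.trans hJn
  have hrsq : r * s * q ≤ n ^ 3 := by
    calc r * s * q ≤ n * n * n := by gcongr
      _ = n ^ 3 := by ring
  rcases Nat.lt_or_ge n 4 with hn | hn
  · refine ⟨3 * n ^ 3, trivial_mct (K := K) (F := F) n, ?_⟩
    calc 3 * n ^ 3 * (r * s * q) ≤ 3 * n ^ 3 * n ^ 3 := Nat.mul_le_mul_left _ hrsq
      _ = 3 * n * n ^ 5 := by ring
      _ ≤ 51788816 * n ^ 5 := Nat.mul_le_mul_right _ (by omega)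
      _ ≤ _ := Nat.le_add_left _ _
  · have hn0 : NeZero n := ⟨by omega⟩
    set k := Nat.log 2 (n / 4) with hk
    have h4 : n / 4 ≠ 0 := by omega
    have h1 : 2 ^ k ≤ n / 4 := Nat.pow_log_le_self 2 h4
    have h2 : n / 4 < 2 ^ (k + 1) := Nat.lt_pow_succ_log_self (by norm_num) _
    have h3 : 4 * 2 ^ k ≤ n := by omega
    have h5 : n ≤ 8 * 2 ^ k := by
      rw [pow_succ] at h2
      omega
    obtain ⟨t₁, ht₁0, ht₁1, ht₁2⟩ := rounds n s hs hsn
    obtain ⟨t₂, ht₂0, ht₂1, ht₂2⟩ := rounds n q hq hqn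
    have hne : Nonempty {j // P j} := ⟨j₀⟩
    have hid : Function.Injective fun i : Fin n => i := fun _ _ h => h
    have hval : Function.Injective (Subtype.val : {j // P j} → Fin n) := Subtype.val_injective
    have hres : ∀ (F : Type u) [CommRing F] [Algebra K F],
        Pat K F {p : Fin n × {j // P j} | (p.1, (p.2 : Fin n)) ∈ S}
          {p : {j // P j} × Fin n | ((p.1 : Fin n), p.2) ∈ Q} Set.univ T := by
      intro F _ _
      have h00 := (h F).restrict hid hval hid
      convert h00 using 1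
      ext p
      simp
    obtain ⟨J₂, _, hJ1, hJ2, h6⟩ := chain (K := K) (s := s) (q := q)
      {p : Fin n × {j // P j} | (p.1, (p.2 : Fin n)) ∈ S}
      {p : {j // P j} × Fin n | ((p.1 : Fin n), p.2) ∈ Q}
      (fun j => j.2.1) (fun j => j.2.2) h3 ht₁2 ht₂2 (T := T) hres
    have hJ2pos : 0 < Fintype.card J₂ := by omega
    set c := n / Fintype.card J₂ + 1 with hc
    have hc1 : n ≤ c * Fintype.card J₂ := by
      have := Nat.lt_div_mul_add hJ2pos (a := n)
      rw [hc, add_mul, one_mul]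
      exact this.le
    have hc2 : c * Fintype.card J₂ ≤ 2 * n := by
      have := Nat.div_mul_le_self n (Fintype.card J₂)
      rw [hc, add_mul, one_mul]
      omega
    have h7 := blocks2 (h6 F) hc1 h5
    refine ⟨_, h7, ?_⟩
    set m := 2 ^ k with hm
    set J := Fintype.card {j // P j} with hJ
    set T₄ := t₁ * (5 * (t₂ * (5 * (T + 3 * (n * n))) + 96 * m * (n + J) + 3 * (m * J))) +
      96 * m * (m + J) with hT₄
    have b1 : 96 * m * (n + J) + 3 * (m * J) ≤ 49 * n ^ 2 := by
      have : 4 * (96 * m * (n + J) + 3 * (m * J)) ≤ 4 * (49 * n ^ 2) := by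
        calc 4 * (96 * m * (n + J) + 3 * (m * J)) =
            (4 * m) * (96 * (n + J) + 3 * J) := by ring
          _ ≤ n * (96 * (n + n) + 3 * n) := by gcongr
          _ ≤ 4 * (49 * n ^ 2) := by nlinarith
      omega
    have b2 : 96 * m * (m + J) ≤ 30 * n ^ 2 := by
      have : 16 * (96 * m * (m + J)) ≤ 16 * (30 * n ^ 2) := by
        calc 16 * (96 * m * (m + J)) = (4 * m) * (96 * (4 * m + 4 * J)) := by ring
          _ ≤ n * (96 * (n + 4 * n)) := by gcongr
          _ ≤ 16 * (30 * n ^ 2) := by nlinarith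
      omega
    have b3 : T₄ ≤ t₁ * t₂ * (25 * T + 350 * n ^ 2) := by
      calc T₄ = t₁ * (25 * t₂ * (T + 3 * n ^ 2) + 5 * (96 * m * (n + J) + 3 * (m * J))) +
            96 * m * (m + J) := by rw [hT₄]; ring
        _ ≤ t₁ * (25 * t₂ * (T + 3 * n ^ 2) + 5 * (49 * n ^ 2)) + 30 * n ^ 2 := by gcongr
        _ = 25 * (t₁ * t₂) * T + (t₁ * t₂ * 75 + t₁ * 1 * 245 + 1 * 1 * 30) * n ^ 2 := by ring
        _ ≤ 25 * (t₁ * t₂) * T + (t₁ * t₂ * 75 + t₁ * t₂ * 245 + t₁ * t₂ * 30) * n ^ 2 := by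
            gcongr
        _ = _ := by ring
    have hcr : c * r ≤ 8 * n := by
      calc c * r ≤ c * (4 * Fintype.card J₂) := Nat.mul_le_mul_left _ (hJc.trans hJ1)
        _ = 4 * (c * Fintype.card J₂) := by ring
        _ ≤ 4 * (2 * n) := Nat.mul_le_mul_left _ hc2
        _ = 8 * n := by ring
    calc (64 * c * T₄ + 16 * n ^ 2) * (r * s * q)
        ≤ (64 * c * (t₁ * t₂ * (25 * T + 350 * n ^ 2)) + 16 * n ^ 2) * (r * s * q) := by gcongr
      _ = 64 * (c * r) * (t₁ * s) * (t₂ * q) * (25 * T + 350 * n ^ 2) +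
          16 * n ^ 2 * (r * s * q) := by ring
      _ ≤ 64 * (8 * n) * (17 * n) * (17 * n) * (25 * T + 350 * n ^ 2) + 16 * n ^ 2 * n ^ 3 := by
          gcongr
      _ = 3699200 * n ^ 3 * T + 51788816 * n ^ 5 := by ring

end count

section formal
variable {K : Type u} [Field K] {n : ℕ} (S Q : Finset (Fin n × Fin n))

/-- the matrix with the entries `x` in the positions of `S` and zeros elsewhere -/
def fill {R : Type*} [Zero R] (S : Finset (Fin n × Fin n)) (x : S → R) :
    Matrix (Fin n) (Fin n) R :=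
  fun i j => if h : (i, j) ∈ S then x ⟨(i, j), h⟩ else 0

/-- the entry `p` of the product -/
noncomputable def pent (K : Type u) [Field K] (S Q : Finset (Fin n × Fin n))
    (p : Fin n × Fin n) : MvPolynomial (S ⊕ Q) K :=
  ∑ j, fill S (fun z => (MvPolynomial.X (Sum.inl z) : MvPolynomial (S ⊕ Q) K)) p.1 j *
    fill Q (fun z => MvPolynomial.X (Sum.inr z)) j p.2

theorem coeff_pent (x₀ : S ⊕ Q → K) (p : Fin n × Fin n) :
    PowerSeries.coeff 2 (psi x₀ (pent K S Q p)) = pent K S Q p := by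
  rw [pent, map_sum, map_sum]
  refine Finset.sum_congr rfl fun j _ => ?_
  by_cases h1 : (p.1, j) ∈ S
  · by_cases h2 : (j, p.2) ∈ Q
    · simp only [fill]
      rw [dif_pos h1, dif_pos h2, map_mul, coeff_two_mul', (coeff_psi_X x₀ _).2.1,
        (coeff_psi_X x₀ _).2.2, (coeff_psi_X x₀ _).2.1, (coeff_psi_X x₀ _).2.2, mul_zero, zero_mul,
        add_zero, zero_add]
    · simp only [fill]
      rw [dif_neg h2, mul_zero, map_zero, map_zero]
  · simp only [fill]
    rw [dif_neg h1, zero_mul, map_zero, map_zero]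

theorem pat_of_leaf [Infinite K] (l : List (Stp K (S ⊕ Q)) × (Fin n × Fin n → Arg K (S ⊕ Q)))
    (hl : ∀ o, FormalAt (pent K S Q) l o) (F : Type v) [CommRing F] [Algebra K F] :
    Pat K F (S : Set (Fin n × Fin n)) (Q : Set (Fin n × Fin n)) Set.univ (8 * l.1.length) := by
  intro X a b ha ha0 hb hb0
  obtain ⟨x₀, A, h1, h2, h3⟩ := jet_out (pent K S Q) l
  have h4 : Gen K (Set.range (MvPolynomial.X (R := K) (σ := S ⊕ Q))) (8 * l.1.length)
      (Set.range (pent K S Q)) := by
    refine (h2.comp (Gen.of_subset (Y := Set.range (pent K S Q)) ?_)).mono subset_rfl (by omega)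
      subset_rfl
    rintro y ⟨p, rfl⟩
    have h5 := h3 p (hl p)
    rw [coeff_pent] at h5
    exact h5
  let φ : MvPolynomial (S ⊕ Q) K →ₐ[K] F :=
    MvPolynomial.aeval (Sum.elim (fun p : S => a p.1.1 p.1.2) (fun p : Q => b p.1.1 p.1.2))
  refine (gen_map φ h4).mono ?_ le_rfl ?_
  · rintro _ ⟨_, ⟨y, rfl⟩, rfl⟩
    rw [MvPolynomial.aeval_X]
    rcases y with y | y
    · exact ha _ _
    · exact hb _ _
  · rintro y ⟨i, k, -, rfl⟩
    refine ⟨pent K S Q (i, k), ⟨(i, k), rfl⟩, ?_⟩
    rw [pent, map_sum]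
    refine Finset.sum_congr rfl fun j _ => ?_
    rw [map_mul]
    congr 1
    · by_cases hS : (i, j) ∈ S
      · simp only [fill]
        rw [dif_pos hS, MvPolynomial.aeval_X]
        rfl
      · simp only [fill]
        rw [dif_neg hS, map_zero, ha0 i j hS]
    · by_cases hQ : (j, k) ∈ Q
      · simp only [fill]
        rw [dif_pos hQ, MvPolynomial.aeval_X]
        rfl
      · simp only [fill]
        rw [dif_neg hQ, map_zero, hb0 j k hQ]

open Classical in
theorem main [Infinite K] (t : Alg K (S ⊕ Q) (Fin n × Fin n)) (T r s q : ℕ) (hr : 1 ≤ r)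
    (hs : 1 ≤ s) (hq : 1 ≤ q)
    (hcount : r ≤ (univ.filter fun j : Fin n =>
      s ≤ (univ.filter fun i : Fin n => (i, j) ∈ S).card ∧
      q ≤ (univ.filter fun c : Fin n => (j, c) ∈ Q).card).card)
    (h : ∀ P : MvPolynomial (S ⊕ Q) K, P ≠ 0 → ∃ x : S ⊕ Q → K, MvPolynomial.eval x P ≠ 0 ∧
      0 < pr x t 0 (fun _ => 0) fun m C => m ≤ T ∧ ∀ o, C o = MvPolynomial.eval x (pent K S Q o)) :
    ∃ (m : ℕ) (g : Fin m → MvPolynomial (Idx n) K), IsProgram g ∧ ComputesProduct g ∧
      m * (r * s * q) ≤ 29593600 * n ^ 3 * T + 51788816 * n ^ 5 := by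
  obtain ⟨l, hl, hl'⟩ := exists_leaf (pent K S Q) t T (Fintype.card (Fin n × Fin n))
    fun P hP => by
      obtain ⟨x, hx, hx'⟩ := h P hP
      refine ⟨x, hx, ?_⟩
      have e : (fun (m : ℕ) (C : Fin n × Fin n → K) => m ≤ T ∧ Fintype.card (Fin n × Fin n) ≤
          (univ.filter fun o => C o = MvPolynomial.eval x (pent K S Q o)).card) =
          fun m C => m ≤ T ∧ ∀ o, C o = MvPolynomial.eval x (pent K S Q o) := by
        funext m C
        apply propext
        refine and_congr_right fun _ => ?_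
        constructor
        · intro h1 o
          have h2 : (univ.filter fun o => C o = MvPolynomial.eval x (pent K S Q o)) = univ :=
            Finset.eq_univ_of_card _ (le_antisymm (card_le_univ _) h1)
          have h3 := mem_univ o
          rw [← h2, mem_filter] at h3
          exact h3.2
        · intro h1
          rw [filter_true_of_mem fun o _ => h1 o, card_univ]
      rw [e]
      exact hx'
  have hall : ∀ o, FormalAt (pent K S Q) l o := by
    intro o
    have h2 : (univ.filter fun o => FormalAt (pent K S Q) l o) = univ :=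
      Finset.eq_univ_of_card _ (le_antisymm (card_le_univ _) hl')
    have h3 := mem_univ o
    rw [← h2, mem_filter] at h3
    exact h3.2
  obtain ⟨c, h1, h2⟩ := whole (K := K) (S : Set (Fin n × Fin n)) (Q : Set (Fin n × Fin n)) hr hs hq
    (by simpa using hcount) (fun F _ _ => pat_of_leaf S Q l hall F) (MvPolynomial (Idx n) K)
  obtain ⟨m, hm, g, hg, hg'⟩ := program_of_mct h1
  refine ⟨m, g, hg, hg', ?_⟩
  calc m * (r * s * q) ≤ c * (r * s * q) := Nat.mul_le_mul_right _ hm
    _ ≤ 3699200 * n ^ 3 * (8 * l.1.length) + 51788816 * n ^ 5 := h2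
    _ ≤ 3699200 * n ^ 3 * (8 * T) + 51788816 * n ^ 5 := by gcongr
    _ = _ := by ring

end formal

end Pool.Agent.Helper35.TP
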