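import Pool.Agent.Helper35.TP.Adj

/-!
# Products of matrices with prescribed patterns
-/

set_option autoImplicit false
set_option linter.unusedSectionVars false

namespace Pool.Agent.Helper35.TP

open Pool.Agent.K3h55.MMT Pool.Agent.Helper35.PP Finset

universe u v

section
variable (K : Type u) (F : Type v) [Field K] [CommRing F] [Algebra K F]

/-- For all matrices `a`, `b` with zeros outside of `S`, `Q` the entries of `a b` in `R` can be
computed with `T` operations. -/
def Pat {α β γ : Type} [Fintype β] (S : Set (α × β)) (Q : Set (β × γ)) (R : Set (α × γ))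
    (T : ℕ) : Prop :=
  ∀ (X : Set F) (a : α → β → F) (b : β → γ → F), (∀ i j, a i j ∈ X) →
    (∀ i j, (i, j) ∉ S → a i j = 0) → (∀ j k, b j k ∈ X) → (∀ j k, (j, k) ∉ Q → b j k = 0) →
    Gen K X T {y | ∃ i k, (i, k) ∈ R ∧ y = ∑ j, a i j * b j k}

variable {K F}
variable {α β γ α' β' γ' : Type} [Fintype β] [Fintype β']

theorem Pat.mono {S : Set (α × β)} {Q : Set (β × γ)} {R : Set (α × γ)} {T T' : ℕ}
    (h : Pat K F S Q R T) (hT : T ≤ T') : Pat K F S Q R T' :=
  fun X a b h1 h2 h3 h4 => (h X a b h1 h2 h3 h4).mono subset_rfl hT subset_rfl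

/-- restriction of the index sets -/
theorem Pat.restrict {S : Set (α' × β')} {Q : Set (β' × γ')} {R : Set (α' × γ')} {T : ℕ}
    (h : Pat K F S Q R T) {f : α → α'} (hf : Function.Injective f) {g : β → β'}
    (hg : Function.Injective g) {e : γ → γ'} (he : Function.Injective e) :
    Pat K F {p : α × β | (f p.1, g p.2) ∈ S} {p : β × γ | (g p.1, e p.2) ∈ Q}
      {p : α × γ | (f p.1, e p.2) ∈ R} T := by
  classical
  intro X a b ha ha0 hb hb0
  have hz : ∀ {ρ σ ρ' σ' : Type} (u : ρ → ρ') (w : σ → σ') (hu : Function.Injective u)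
      (hw : Function.Injective w) (M : ρ → σ → F) (W : Set (ρ' × σ'))
      (hM : ∀ i j, (u i, w j) ∉ W → M i j = 0) (x : ρ') (y : σ'), (x, y) ∉ W →
      ext2 u w M x y = 0 := by
    intro ρ σ ρ' σ' u w hu hw M W hM x y hxy
    by_cases hx : ∃ i, u i = x
    · obtain ⟨i, rfl⟩ := hx
      by_cases hy : ∃ j, w j = y
      · obtain ⟨j, rfl⟩ := hy
        rw [ext2_apply hu hw]
        exact hM i j hxy
      · exact ext2_right hu M i y hy
    · simp only [ext2]
      rw [Function.extend_apply' _ _ _ hx]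
      rfl
  have h1 := h (X ∪ {0}) (ext2 f g a) (ext2 g e b) (ext2_mem f g a X ha)
    (hz f g hf hg a S ha0) (ext2_mem g e b X hb) (hz g e hg he b Q hb0)
  refine ((gen_zero X).comp h1).mono subset_rfl (by omega) ?_
  rintro _ ⟨i, k, hik, rfl⟩
  refine ⟨f i, e k, hik, ?_⟩
  apply Fintype.sum_of_injective g hg
  · intro z hz
    rw [ext2_right hf a i z (by simpa using hz), zero_mul]
  · intro j
    rw [ext2_apply hf hg, ext2_apply hg he]

/-- transposition -/
theorem Pat.transpose {S : Set (α × β)} {Q : Set (β × γ)} {R : Set (α × γ)} {T : ℕ}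
    (h : Pat K F S Q R T) : Pat K F {p : γ × β | (p.2, p.1) ∈ Q} {p : β × α | (p.2, p.1) ∈ S}
      {p : γ × α | (p.2, p.1) ∈ R} T := by
  intro X a b ha ha0 hb hb0
  refine (h X (fun i j => b j i) (fun j k => a k j) (fun i j => hb j i) (fun i j hij => hb0 j i hij)
    (fun j k => ha k j) (fun j k hjk => ha0 k j hjk)).mono subset_rfl le_rfl ?_
  rintro _ ⟨k, i, hki, rfl⟩
  exact ⟨i, k, hki, Finset.sum_congr rfl fun j _ => mul_comm _ _⟩

end

section rot
variable {K : Type u} [Field K] {α β γ : Type} [Fintype α] [Fintype β] [Fintype γ]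

/-- **Rotation** of the three patterns -/
theorem rotate {S : Set (α × β)} {Q : Set (β × γ)} {R : Set (α × γ)} {T : ℕ}
    (h : Pat K (MvPolynomial ((α × β) ⊕ (β × γ) ⊕ (α × γ)) K) S Q R T)
    (F : Type v) [CommRing F] [Algebra K F] :
    Pat K F {p : β × α | (p.2, p.1) ∈ S} R Q
      (5 * (T + 3 * (Fintype.card α * Fintype.card γ))) := by
  classical
  intro X a' b' ha ha0 hb hb0
  set V := (α × β) ⊕ (β × γ) ⊕ (α × γ) with hV
  let a : α → β → MvPolynomial V K := fun i j =>
    if (i, j) ∈ S then MvPolynomial.X (Sum.inl (i, j)) else 0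
  let b : β → γ → MvPolynomial V K := fun j k =>
    if (j, k) ∈ Q then MvPolynomial.X (Sum.inr (Sum.inl (j, k))) else 0
  let c : α → γ → MvPolynomial V K := fun i k =>
    if (i, k) ∈ R then MvPolynomial.X (Sum.inr (Sum.inr (i, k))) else 0
  set Z : Set (MvPolynomial V K) := Set.range MvPolynomial.X ∪ {0} with hZ
  have ha1 : ∀ i j, a i j ∈ Z := fun i j => by
    simp only [a]
    split_ifs
    · exact Or.inl ⟨_, rfl⟩
    · exact Or.inr rfl
  have hb1 : ∀ j k, b j k ∈ Z := fun j k => by
    simp only [b]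
    split_ifs
    · exact Or.inl ⟨_, rfl⟩
    · exact Or.inr rfl
  have hc1 : ∀ i k, c i k ∈ Z := fun i k => by
    simp only [c]
    split_ifs
    · exact Or.inl ⟨_, rfl⟩
    · exact Or.inr rfl
  have g1 := h Z a b ha1 (fun i j hij => if_neg hij) hb1 (fun j k hjk => if_neg hjk)
  -- the trilinear form
  let f : MvPolynomial V K := ∑ p : α × γ, c p.1 p.2 * ∑ j, a p.1 j * b j p.2
  set Y : Set (MvPolynomial V K) := {y | ∃ i k, (i, k) ∈ R ∧ y = ∑ j, a i j * b j k} with hY
  have g2 : Gen K (Z ∪ Y) (Fintype.card (α × γ) * 1)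
      (Set.range fun p : α × γ => c p.1 p.2 * ∑ j, a p.1 j * b j p.2) := by
    refine Gen.range _ _ fun p => ?_
    by_cases hp : (p.1, p.2) ∈ R
    · exact Gen.step _ _ _ (Or.inr (Or.inl (Or.inl (hc1 p.1 p.2))))
        (Or.inr (Or.inl (Or.inr ⟨p.1, p.2, hp, rfl⟩))) (Or.inr (Or.inr rfl))
    · have h0 : c p.1 p.2 = 0 := if_neg hp
      rw [h0, zero_mul]
      refine (Gen.of_subset ?_).mono subset_rfl (Nat.zero_le _) subset_rfl
      rintro _ rfl
      exact zero_av _
  have g3 := Gen.lincomb (K := K) (X := Set.range fun p : α × γ =>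
    c p.1 p.2 * ∑ j, a p.1 j * b j p.2) (Finset.univ : Finset (α × γ)) (fun _ => (1 : K))
    (fun p => c p.1 p.2 * ∑ j, a p.1 j * b j p.2) (fun p _ => ⟨p, rfl⟩)
  have g4 : Gen K (Set.range (MvPolynomial.X (R := K) (σ := V)))
      (T + 3 * (Fintype.card α * Fintype.card γ)) {f} := by
    refine (((gen_zero (Set.range MvPolynomial.X)).comp g1.keep).comp (g2.comp g3)).mono
      subset_rfl ?_ ?_
    · rw [card_univ, Fintype.card_prod]
      omega
    · rw [Set.singleton_subset_iff, Set.mem_singleton_iff]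
      simp only [map_one, one_mul, f]
  have g5 := gradient g4
  -- the derivatives
  have hd : ∀ (j₀ : β) (k₀ : γ), (j₀, k₀) ∈ Q →
      MvPolynomial.pderiv (Sum.inr (Sum.inl (j₀, k₀))) f = ∑ i, c i k₀ * a i j₀ := by
    intro j₀ k₀ hjk
    have da : ∀ i j, MvPolynomial.pderiv (Sum.inr (Sum.inl (j₀, k₀)) : V) (a i j) = 0 := by
      intro i j
      simp only [a]
      split_ifs
      · rw [MvPolynomial.pderiv_X_of_ne (by simp)]
      · rw [map_zero]
    have dc : ∀ i k, MvPolynomial.pderiv (Sum.inr (Sum.inl (j₀, k₀)) : V) (c i k) = 0 := by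
      intro i j
      simp only [c]
      split_ifs
      · rw [MvPolynomial.pderiv_X_of_ne (by simp)]
      · rw [map_zero]
    have db : ∀ j k, MvPolynomial.pderiv (Sum.inr (Sum.inl (j₀, k₀)) : V) (b j k) =
        if j = j₀ ∧ k = k₀ then 1 else 0 := by
      intro j k
      by_cases hj : j = j₀ ∧ k = k₀
      · obtain ⟨rfl, rfl⟩ := hj
        rw [if_pos ⟨rfl, rfl⟩]
        simp only [b]
        rw [if_pos hjk, MvPolynomial.pderiv_X_self]
      · rw [if_neg hj]
        simp only [b]
        split_ifs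
        · rw [MvPolynomial.pderiv_X_of_ne]
          intro h0
          simp only [Sum.inr.injEq, Sum.inl.injEq, Prod.mk.injEq] at h0
          exact hj h0
        · rw [map_zero]
    simp only [f, map_sum, Derivation.leibniz, smul_eq_mul, da, dc, db, mul_zero, add_zero]
    rw [Fintype.sum_prod_type]
    refine Finset.sum_congr rfl fun i _ => ?_
    rw [Finset.sum_eq_single k₀]
    · congr 1
      rw [Finset.sum_eq_single j₀]
      · simp
      · intro j _ hj
        rw [if_neg (fun h0 => hj h0.1), mul_zero]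
      · intro h0
        exact absurd (mem_univ _) h0
    · intro k _ hk
      rw [Finset.sum_eq_zero, mul_zero]
      intro j _
      rw [if_neg (fun h0 => hk h0.2), mul_zero]
    · intro h0
      exact absurd (mem_univ _) h0
  -- substitution
  let φ : MvPolynomial V K →ₐ[K] F := MvPolynomial.aeval
    (Sum.elim (fun p : α × β => a' p.2 p.1) (Sum.elim (fun _ => 0) fun p : α × γ => b' p.1 p.2))
  have g6 : Gen K (X ∪ {0}) (5 * (T + 3 * (Fintype.card α * Fintype.card γ)))
      {y | ∃ j k, (j, k) ∈ Q ∧ y = ∑ i, a' j i * b' i k} := by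
    refine (gen_map φ g5).mono ?_ le_rfl ?_
    · rintro _ ⟨_, ⟨y, rfl⟩, rfl⟩
      rw [MvPolynomial.aeval_X]
      rcases y with y | y | y
      · exact Or.inl (ha _ _)
      · exact Or.inr rfl
      · exact Or.inl (hb _ _)
    · rintro y ⟨j, k, hjk, rfl⟩
      refine ⟨_, ⟨Sum.inr (Sum.inl (j, k)), rfl⟩, ?_⟩
      beta_reduce
      rw [hd j k hjk, map_sum]
      refine Finset.sum_congr rfl fun i _ => ?_
      rw [map_mul, mul_comm]
      congr 1
      · by_cases hS : (i, j) ∈ S
        · simp only [a]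
          rw [if_pos hS, MvPolynomial.aeval_X]
          rfl
        · simp only [a]
          rw [if_neg hS, map_zero, ha0 j i hS]
      · by_cases hR : (i, k) ∈ R
        · simp only [c]
          rw [if_pos hR, MvPolynomial.aeval_X]
          rfl
        · simp only [c]
          rw [if_neg hR, map_zero, hb0 i k hR]
  exact ((gen_zero X).comp g6).mono subset_rfl (by omega) subset_rfl

end rot

end Pool.Agent.Helper35.TP
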