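import Pool.Agent.Helper35.TP.Pat
import Pool.Agent.Helper35.PP.Blocks

/-!
# Completion of the pattern of the outputs
-/

set_option autoImplicit false
set_option linter.unusedSectionVars false

namespace Pool.Agent.Helper35.TP

open Pool.Agent.K3h55.MMT Pool.Agent.Helper35.PP Finset

universe u v

section cover
variable {G : Type} [AddGroup G] [Fintype G] {J : Type} [Fintype J]

open Classical in
/-- the elements of `M` which are not covered -/
noncomputable def left (S : J → Finset G) (M : Finset G) {t : ℕ} (g : Fin t → G) (j : J) :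
    Finset G := M.filter fun p => ∀ l, p + g l ∉ S j

theorem mem_left {S : J → Finset G} {M : Finset G} {t : ℕ} {g : Fin t → G} {j : J} {p : G} :
    p ∈ left S M g j ↔ p ∈ M ∧ ∀ l, p + g l ∉ S j := by
  classical
  simp [left]

open Classical in
theorem family_step (S M : J → Finset G) (q : ℕ) (hq : ∀ j, q ≤ (S j).card) : ∃ g : G,
    (∑ j, ((M j).filter fun p => p + g ∉ S j).card) * Fintype.card G ≤
      (∑ j, (M j).card) * (Fintype.card G - q) := by
  classical
  by_contra hcon
  push Not at hcon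
  have h1 : ∑ g : G, ∑ j, ((M j).filter fun p => p + g ∉ S j).card ≤
      (∑ j, (M j).card) * (Fintype.card G - q) := by
    rw [sum_comm, sum_mul]
    refine sum_le_sum fun j _ => ?_
    have : ∑ g : G, ((M j).filter fun p => p + g ∉ S j).card =
        ∑ p ∈ M j, (univ.filter fun g : G => p + g ∉ S j).card := by
      simp only [card_filter]
      rw [sum_comm]
    rw [this, sum_congr rfl fun p _ => card_translates (S j) p, sum_const, smul_eq_mul]
    exact Nat.mul_le_mul_left _ (Nat.sub_le_sub_left (hq j) _)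
  have h2 : ∑ _g : G, (∑ j, (M j).card) * (Fintype.card G - q) <
      ∑ g : G, (∑ j, ((M j).filter fun p => p + g ∉ S j).card) * Fintype.card G :=
    sum_lt_sum_of_nonempty ⟨0, mem_univ _⟩ fun g _ => hcon g
  rw [sum_const, smul_eq_mul, card_univ, ← sum_mul, mul_comm] at h2
  exact absurd (Nat.mul_le_mul_right (Fintype.card G) h1) (not_le.2 h2)

/-- After `t` translates few elements are left, in total. -/
theorem cover_family [Nonempty J] (S : J → Finset G) (M : Finset G) (q : ℕ)
    (hq : ∀ j, q ≤ (S j).card) (t : ℕ) : ∃ g : Fin t → G,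
    ((∑ j, (left S M g j).card : ℕ) : ℝ) ≤
      (Fintype.card J * M.card : ℕ) * (1 - (q : ℝ) / Fintype.card G) ^ t := by
  classical
  have hG : (0 : ℝ) < Fintype.card G := by exact_mod_cast Fintype.card_pos_iff.2 ⟨(0 : G)⟩
  have hS : q ≤ Fintype.card G := (hq (Classical.arbitrary J)).trans (card_le_univ _)
  induction t with
  | zero =>
    refine ⟨fun l => l.elim0, ?_⟩
    rw [pow_zero, mul_one]
    have : ∑ j, (left S M (fun l : Fin 0 => (l.elim0 : G)) j).card ≤ Fintype.card J * M.card := by
      rw [← card_univ, ← smul_eq_mul, ← sum_const]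
      exact sum_le_sum fun j _ => card_le_card (filter_subset _ _)
    exact_mod_cast this
  | succ t ih =>
    obtain ⟨g, hg⟩ := ih
    obtain ⟨a, ha⟩ := family_step S (fun j => left S M g j) q hq
    refine ⟨Fin.snoc g a, ?_⟩
    have h1 : ∀ j, left S M (Fin.snoc g a : Fin (t + 1) → G) j =
        (left S M g j).filter fun p => p + a ∉ S j := by
      intro j
      ext p
      simp only [left, mem_filter, and_assoc]
      constructor
      · rintro ⟨h2, h3⟩
        refine ⟨h2, fun l => ?_, ?_⟩
        · have := h3 l.castSucc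
          rwa [Fin.snoc_castSucc] at this
        · have := h3 (Fin.last t)
          rwa [Fin.snoc_last] at this
      · rintro ⟨h2, h3, h4⟩
        refine ⟨h2, fun l => ?_⟩
        refine Fin.lastCases ?_ (fun l => ?_) l
        · rwa [Fin.snoc_last]
        · rw [Fin.snoc_castSucc]
          exact h3 l
    simp only [h1]
    have h2 : ((∑ j, ((left S M g j).filter fun p => p + a ∉ S j).card : ℕ) : ℝ) *
        Fintype.card G ≤ (∑ j, (left S M g j).card : ℕ) * (Fintype.card G - q) := by
      have : (((∑ j, ((left S M g j).filter fun p => p + a ∉ S j).card) *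
        Fintype.card G : ℕ) : ℝ) ≤ (((∑ j, (left S M g j).card) *
          (Fintype.card G - q) : ℕ) : ℝ) := by exact_mod_cast ha
      rw [Nat.cast_mul, Nat.cast_mul, Nat.cast_sub hS] at this
      exact this
    have h3 : ((∑ j, ((left S M g j).filter fun p => p + a ∉ S j).card : ℕ) : ℝ) ≤
        (∑ j, (left S M g j).card : ℕ) * (1 - (q : ℝ) / Fintype.card G) := by
      rw [one_sub_div hG.ne', mul_div_assoc', le_div_iff₀ hG]
      exact h2
    refine h3.trans ?_
    have h4 : (0 : ℝ) ≤ 1 - (q : ℝ) / Fintype.card G := by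
      rw [sub_nonneg, div_le_one hG]
      exact_mod_cast hS
    rw [pow_succ, ← mul_assoc]
    exact mul_le_mul_of_nonneg_right hg h4

end cover

section code
variable (K : Type u) [CommRing K] (F : Type v) [CommRing F] [Algebra K F]

/-- codes on standard index sets -/
theorem exists_code_fin (k : ℕ) : ∃ E : (Fin (2 ^ k) → F) →ₗ[F] (Fin (4 * 2 ^ k) → F),
    IsCode K F E (96 * 2 ^ k) := by
  classical
  obtain ⟨κ, _, E, hκ, hE1, hE2⟩ := exists_code (K := K) (F := F) k (Fin (2 ^ k)) (by simp)
  let σ : κ ≃ Fin (4 * 2 ^ k) := Fintype.equivFinOfCardEq hκ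
  refine ⟨(LinearMap.funLeft F F σ.symm).comp E, ?_, ?_⟩
  · intro X x hx
    refine (hE1 X x hx).mono subset_rfl le_rfl ?_
    rintro _ ⟨c, rfl⟩
    exact ⟨σ.symm c, rfl⟩
  · intro x D hD
    refine (hE2 x (D.map σ.symm.toEmbedding) (by rwa [card_map])).mono ?_ le_rfl subset_rfl
    rintro _ ⟨c, hc, rfl⟩
    refine ⟨σ c, ?_, ?_⟩
    · intro h
      apply hc
      rw [mem_map]
      exact ⟨σ c, h, by simp⟩
    · rw [LinearMap.comp_apply, LinearMap.funLeft_apply, Equiv.symm_apply_apply]

end code

section stage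
variable {K : Type u} [Field K] {J I : Type} [Fintype J] [Fintype I]

open Classical in
/-- **Completion of the rows of the output** -/
theorem stage [Nonempty J] {n k t q T : ℕ} [NeZero n] (S : Set (J × I)) (Q : Set (J × Fin n))
    (hQ : ∀ j, q ≤ (univ.filter fun c => (j, c) ∈ Q).card) (hk : 4 * 2 ^ k ≤ n)
    (ht : (8 * 640000 : ℝ) * (1 - (q : ℝ) / n) ^ t ≤ 1)
    (h : ∀ (F : Type u) [CommRing F] [Algebra K F], Pat K F S Set.univ Q T) :
    ∃ J' : Finset J, Fintype.card J ≤ 2 * J'.card ∧
      ∀ (F : Type u) [CommRing F] [Algebra K F],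
        Pat K F {p : J' × I | ((p.1 : J), p.2) ∈ S} (Set.univ : Set (I × Fin (2 ^ k)))
          (Set.univ : Set (J' × Fin (2 ^ k)))
          (t * T + 96 * 2 ^ k * (Fintype.card I + Fintype.card J)) := by
  classical
  obtain ⟨e, he⟩ := exists_inj (α := Fin (4 * 2 ^ k)) (β := Fin n) (by
    rw [Fintype.card_fin, Fintype.card_fin]
    exact hk)
  let M : Finset (Fin n) := univ.image e
  obtain ⟨g, hg⟩ := cover_family (fun j => univ.filter fun c => (j, c) ∈ Q) M q hQ t
  let D : J → Finset (Fin (4 * 2 ^ k)) := fun j => univ.filter fun c => ∀ l, (j, e c + g l) ∉ Q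
  have hDc : ∀ j, (D j).card ≤ (left (fun j => univ.filter fun c => (j, c) ∈ Q) M g j).card := by
    intro j
    refine card_le_card_of_injOn e ?_ he.injOn
    intro c hc
    rw [mem_coe, mem_filter] at hc
    rw [mem_coe, mem_left]
    refine ⟨mem_image_of_mem _ (mem_univ _), fun l hl => hc.2 l ?_⟩
    exact (mem_filter.1 hl).2
  let J' : Finset J := univ.filter fun j => 640000 * (D j).card ≤ 2 ^ k
  have hJ' : Fintype.card J ≤ 2 * J'.card := by
    by_contra hcon
    push Not at hcon
    -- the bad rows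
    have h1 : (J'ᶜ).card * (2 ^ k + 1) ≤ ∑ j ∈ J'ᶜ, 640000 * (D j).card := by
      rw [← smul_eq_mul, ← sum_const]
      refine sum_le_sum fun j hj => ?_
      rw [mem_compl, mem_filter, not_and] at hj
      have := hj (mem_univ _)
      omega
    have h2 : ∑ j ∈ J'ᶜ, 640000 * (D j).card ≤ 640000 * ∑ j,
        (left (fun j => univ.filter fun c => (j, c) ∈ Q) M g j).card := by
      rw [mul_sum]
      refine (sum_le_sum_of_subset (subset_univ _)).trans ?_
      exact sum_le_sum fun j _ => Nat.mul_le_mul_left _ (hDc j)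
    have h3 : M.card ≤ 4 * 2 ^ k := by
      refine card_image_le.trans (le_of_eq ?_)
      rw [card_univ, Fintype.card_fin]
    rw [Fintype.card_fin] at hg
    have hn : (0 : ℝ) < n := by exact_mod_cast NeZero.pos n
    have hqn : q ≤ n := by
      have := (hQ (Classical.arbitrary J)).trans (card_le_univ _)
      rwa [Fintype.card_fin] at this
    have h0 : (0 : ℝ) ≤ (1 - (q : ℝ) / n) ^ t := by
      apply pow_nonneg
      rw [sub_nonneg, div_le_one hn]
      exact_mod_cast hqn
    set W := ∑ j, (left (fun j => univ.filter fun c => (j, c) ∈ Q) M g j).card with hW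
    have h4 : (640000 : ℝ) * W * 2 ≤ Fintype.card J * 2 ^ k := by
      calc (640000 : ℝ) * W * 2 ≤ 640000 * ((Fintype.card J * M.card : ℕ) *
            (1 - (q : ℝ) / n) ^ t) * 2 := by gcongr
        _ ≤ 640000 * ((Fintype.card J * (4 * 2 ^ k) : ℕ) * (1 - (q : ℝ) / n) ^ t) * 2 := by
            gcongr
        _ = Fintype.card J * 2 ^ k * ((8 * 640000 : ℝ) * (1 - (q : ℝ) / n) ^ t) := by
            push_cast
            ring
        _ ≤ Fintype.card J * 2 ^ k * 1 := by gcongr
        _ = _ := mul_one _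
    have h5 : 640000 * W * 2 ≤ Fintype.card J * 2 ^ k := by exact_mod_cast h4
    have h6 : (J'ᶜ).card = Fintype.card J - J'.card := card_compl _
    have h7 : Fintype.card J < 2 * (J'ᶜ).card := by omega
    have h8 : (J'ᶜ).card * (2 ^ k + 1) ≤ 640000 * W := h1.trans h2
    have h9 : 2 * (J'ᶜ).card * (2 ^ k + 1) ≤ Fintype.card J * 2 ^ k := by
      calc 2 * (J'ᶜ).card * (2 ^ k + 1) = (J'ᶜ).card * (2 ^ k + 1) * 2 := by ring
        _ ≤ 640000 * W * 2 := Nat.mul_le_mul_right _ h8
        _ ≤ _ := h5
    have h10 : Fintype.card J * 2 ^ k ≤ 2 * (J'ᶜ).card * 2 ^ k :=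
      Nat.mul_le_mul_right _ h7.le
    have h11 : 0 < 2 * (J'ᶜ).card := by omega
    nlinarith
  refine ⟨J', hJ', fun F _ _ => ?_⟩
  intro X a b ha ha0 hb _
  obtain ⟨E, hE1, hE2⟩ := exists_code_fin K F k
  rw [Fintype.card_fin] at hE2
  -- extension of `a` to all rows
  let a' : J → I → F := fun j i => if hj : j ∈ J' then a ⟨j, hj⟩ i else 0
  have ha' : ∀ j i, a' j i ∈ X ∪ {0} := by
    intro j i
    simp only [a']
    split_ifs
    · exact Or.inl (ha _ _)
    · exact Or.inr rfl
  have ha'0 : ∀ j i, (j, i) ∉ S → a' j i = 0 := by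
    intro j i hji
    simp only [a']
    split_ifs with hj
    · exact ha0 _ _ hji
    · rfl
  -- the encoded matrix
  let b' : I → Fin (4 * 2 ^ k) → F := fun i c => E (b i) c
  have hb' : Gen K X (Fintype.card I * (96 * 2 ^ k))
      (Set.range fun p : I × Fin (4 * 2 ^ k) => b' p.1 p.2) := by
    have h1 := Gen.iUnion (K := K) (X := X) (fun i : I => Set.range (E (b i))) (96 * 2 ^ k)
      (fun i => hE1 X _ fun c => hb i c)
    refine h1.mono subset_rfl le_rfl ?_
    rintro _ ⟨⟨i, c⟩, rfl⟩
    exact Set.mem_iUnion.2 ⟨i, c, rfl⟩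
  set B : Set F := Set.range fun p : I × Fin (4 * 2 ^ k) => b' p.1 p.2 with hB
  set X1 : Set F := X ∪ B with hX1
  let Y : J → Fin (4 * 2 ^ k) → F := fun j c => ∑ i, a' j i * b' i c
  have hround : ∀ l : Fin t, Gen K X1 T {y | ∃ j c, (j, e c + g l) ∈ Q ∧ y = Y j c} := by
    intro l
    have hinj : Function.Injective fun c => e c + g l := fun c c' hc => he (add_right_cancel hc)
    have hid : Function.Injective fun i : I => i := fun _ _ h => h
    have h1 := h F (X1 ∪ {0}) a' (ext2 (fun i : I => i) (fun c => e c + g l) b')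
      (fun j i => by
        rcases ha' j i with h | h
        · exact Or.inl (Or.inl h)
        · exact Or.inr h) ha'0
      (ext2_mem _ _ _ X1 fun i c => Or.inr ⟨(i, c), rfl⟩)
      (fun _ _ hn => absurd (Set.mem_univ _) hn)
    refine ((gen_zero X1).comp h1).mono subset_rfl (by omega) ?_
    rintro _ ⟨j, c, hjc, rfl⟩
    refine ⟨j, e c + g l, hjc, ?_⟩
    simp only [Y]
    refine Finset.sum_congr rfl fun i _ => ?_
    have e1 := ext2_apply hid hinj b' i c
    rw [e1]
  set Y1 : Set F := {y | ∃ j c, c ∉ D j ∧ y = Y j c} with hY1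
  have hrounds : Gen K X1 (t * T) Y1 := by
    have h1 := Gen.iUnion (K := K) (X := X1) _ T hround
    rw [Fintype.card_fin] at h1
    refine h1.mono subset_rfl le_rfl ?_
    rintro _ ⟨j, c, hc, rfl⟩
    have h2 : ∃ l, (j, e c + g l) ∈ Q := by
      by_contra hcon
      push Not at hcon
      exact hc (mem_filter.2 ⟨mem_univ _, hcon⟩)
    obtain ⟨l, hl⟩ := h2
    exact Set.mem_iUnion.2 ⟨l, j, c, hl, rfl⟩
  -- decoding
  have hrows : Gen K Y1 (Fintype.card J' * (96 * 2 ^ k))
      (⋃ j : J', Set.range fun c => ∑ i, a j i * b i c) := by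
    refine Gen.iUnion _ _ fun j => ?_
    have hj2 : 640000 * (D j).card ≤ 2 ^ k := (mem_filter.1 j.2).2
    refine (hE2 (fun c => ∑ i, a j i * b i c) (D j) hj2).mono ?_ le_rfl subset_rfl
    rintro _ ⟨c, hc, rfl⟩
    refine ⟨j, c, hc, ?_⟩
    have h2 : (fun c => ∑ i, a j i * b i c) = ∑ i, a j i • b i := by
      funext c
      simp only [Finset.sum_apply, Pi.smul_apply, smul_eq_mul]
    rw [h2, map_sum, Finset.sum_apply]
    refine sum_congr rfl fun i _ => ?_
    rw [map_smul, Pi.smul_apply, smul_eq_mul]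
    simp only [a', b']
    rw [dif_pos j.2]
  have hcard : Fintype.card J' ≤ Fintype.card J := by
    rw [Fintype.card_coe]
    exact card_le_univ _
  refine (hb'.keep.comp (hrounds.comp hrows)).mono subset_rfl ?_ ?_
  · calc Fintype.card I * (96 * 2 ^ k) + (t * T + Fintype.card J' * (96 * 2 ^ k)) =
        t * T + 96 * 2 ^ k * (Fintype.card I + Fintype.card J') := by ring
      _ ≤ _ := by gcongr
  · rintro _ ⟨j, c, -, rfl⟩
    exact Set.mem_iUnion.2 ⟨j, c, rfl⟩

end stage

end Pool.Agent.Helper35.TP
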